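import Pool.Agent.helper36.HK.Spec

/-!
# fi:RSP: the recursion at the split primes
-/

set_option autoImplicit false

open Finset
open Pool.Agent.FI

noncomputable section

namespace Pool.Agent.HK

theorem RSP_N8_mul (z w : ℤ × ℤ) : N8 (mul8 z w) = N8 z * N8 w := by
  unfold N8 mul8
  ring

theorem RSP_nn_mul (z w : ℤ × ℤ) : nn (mul8 z w) = nn z * nn w := by
  unfold nn
  rw [RSP_N8_mul, Int.natAbs_mul]

/-- If the prime `p` divides the second coordinate of `z * cj π` then `π` divides `z`. -/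
theorem RSP_dv (p : ℕ) (hp : p.Prime) (π z : ℤ × ℤ) (s : ℤ) (hs : s * s = 1) (hN : N8 π = s * p)
    (hz : (p : ℤ) ∣ N8 z) (h : (p : ℤ) ∣ z.2 * π.1 - z.1 * π.2) : Dv π z := by
  have hpz : (p : ℤ) ≠ 0 := by exact_mod_cast hp.ne_zero
  have hpp : Prime (p : ℤ) := Nat.prime_iff_prime_int.1 hp
  -- the first coordinate
  have h1 : (p : ℤ) ∣ z.1 * π.1 - 8 * z.2 * π.2 := by
    have e : (z.1 * π.1 - 8 * z.2 * π.2) ^ 2 = N8 z * N8 π + 8 * (z.2 * π.1 - z.1 * π.2) ^ 2 := by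
      unfold N8
      ring
    apply hpp.dvd_of_dvd_pow (n := 2)
    rw [e]
    exact dvd_add (hz.mul_right _) (Dvd.dvd.mul_left (dvd_pow h two_ne_zero) _)
  obtain ⟨a, ha⟩ := h1
  obtain ⟨b, hb⟩ := h
  unfold N8 at hN
  refine ⟨(s * a, s * b), ?_⟩
  unfold mul8
  ext
  · show π.1 * (s * a) + 8 * π.2 * (s * b) = z.1
    apply mul_left_cancel₀ hpz
    linear_combination (-(s * π.1)) * ha - (s * 8 * π.2) * hb + (s * z.1) * hN + (p : ℤ) * z.1 * hs
  · show π.1 * (s * b) + π.2 * (s * a) = z.2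
    apply mul_left_cancel₀ hpz
    linear_combination (-(s * π.1)) * hb - (s * π.2) * ha + (s * z.2) * hN + (p : ℤ) * z.2 * hs

/-- If `π` divides `z` then `N8 π` divides both coordinates of `z * cj π`. -/
theorem RSP_dv_conv (π z : ℤ × ℤ) (h : Dv π z) :
    N8 π ∣ z.1 * π.1 - 8 * z.2 * π.2 ∧ N8 π ∣ z.2 * π.1 - z.1 * π.2 := by
  obtain ⟨v, rfl⟩ := h
  refine ⟨⟨v.1, ?_⟩, ⟨v.2, ?_⟩⟩
  · unfold mul8 N8
    ring
  · unfold mul8 N8
    ring

theorem RSP_conj (π : ℤ × ℤ) : N8 (cj π) = N8 π ∧ nn (cj π) = nn π := by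
  have h : N8 (cj π) = N8 π := by
    unfold N8 cj
    ring
  exact ⟨h, by unfold nn; rw [h]⟩

theorem RSP_ie {α : Type} (A : Finset α) (f : α → ℂ) (P Q : α → Prop) [DecidablePred P] [DecidablePred Q]
    [DecidablePred fun a => P a ∧ Q a] (h : ∀ a ∈ A, P a ∨ Q a) :
    ∑ a ∈ A, f a = ∑ a ∈ A with P a, f a + ∑ a ∈ A with Q a, f a - ∑ a ∈ A with P a ∧ Q a, f a := by
  rw [sum_filter, sum_filter, sum_filter, ← sum_add_distrib, ← sum_sub_distrib]
  refine sum_congr rfl fun a ha => ?_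
  rcases h a ha with h1 | h1
  · by_cases h2 : Q a
    · simp [h1, h2]
    · simp [h1, h2]
  · by_cases h2 : P a
    · simp [h1, h2]
    · simp [h1, h2]

theorem RSP (hMUL : MUL_stmt) (hSIZ : SIZ_stmt) : RSP_stmt := by
  classical
  have _ := hSIZ
  intro d Ψ hΨ p π hp hp2 hπ hpd m hm
  obtain ⟨hmul, hunit, hzero, hnorm, hrat⟩ := hΨ
  have hpz : (p : ℤ) ≠ 0 := by exact_mod_cast hp.ne_zero
  have hpp : Prime (p : ℤ) := Nat.prime_iff_prime_int.1 hp
  have hpodd : p % 2 = 1 := hp.eq_two_or_odd.resolve_left hp2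
  have hcop : Nat.Coprime p d := (Nat.Prime.coprime_iff_not_dvd hp).2 hpd
  -- the sign
  obtain ⟨s, hs, hN⟩ : ∃ s : ℤ, s * s = 1 ∧ N8 π = s * p := by
    have h1 : (N8 π).natAbs = p := hπ
    rcases Int.natAbs_eq (N8 π) with h | h
    · exact ⟨1, by norm_num, by rw [h, h1]; ring⟩
    · exact ⟨-1, by norm_num, by rw [h, h1]; ring⟩
  have hs' : s = 1 ∨ s = -1 := by
    have : (s - 1) * (s + 1) = 0 := by linear_combination hs
    rcases mul_eq_zero.1 this with h | h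
    · left; linarith
    · right; linarith
  have hNodd : N8 π % 2 = 1 := by
    rw [hN]
    rcases hs' with rfl | rfl <;> omega
  have hπodd : π.1 % 2 = 1 := by
    unfold N8 at hNodd
    rcases Int.emod_two_eq_zero_or_one π.1 with h | h
    · exfalso
      obtain ⟨k, hk⟩ : ∃ k, π.1 = 2 * k := ⟨π.1 / 2, by omega⟩
      rw [hk] at hNodd
      have e : (2 * k) ^ 2 - 8 * π.2 ^ 2 = 2 * (2 * k ^ 2 - 4 * π.2 ^ 2) := by ring
      rw [e] at hNodd
      omega
    · exact h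
  have hcj1 : (cj π).1 = π.1 := rfl
  have hcj2 : (cj π).2 = -π.2 := rfl
  have hcjodd : (cj π).1 % 2 = 1 := hπodd
  obtain ⟨hNc, hnc⟩ := RSP_conj π
  have hcoN : IsCoprime (N8 π) (d : ℤ) := by
    rw [Int.isCoprime_iff_gcd_eq_one]
    have : Int.gcd (N8 π) (d : ℤ) = Nat.gcd (nn π) d := rfl
    rw [this, hπ]
    exact hcop
  have hcop' : IsCoprime (p : ℤ) (d : ℤ) := Nat.isCoprime_iff_coprime.2 hcop
  -- the character at `π` and at `cj π`
  have hconj : Ψ (cj π) = (starRingEnd ℂ) (Ψ π) := by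
    have h1 : Ψ π * Ψ (cj π) = 1 := by
      rw [← hmul π (cj π) hπodd hcjodd]
      have e : mul8 π (cj π) = (N8 π, 0) := by
        unfold mul8 cj N8
        ext
        · show π.1 * π.1 + 8 * π.2 * (-π.2) = π.1 ^ 2 - 8 * π.2 ^ 2
          ring
        · show π.1 * (-π.2) + π.2 * π.1 = 0
          ring
      rw [e]
      exact hrat _ hNodd hcoN
    have h2 : ‖Ψ π‖ = 1 := hnorm π hπodd (by rw [hπ]; exact hcop)
    rw [← Complex.inv_eq_conj h2]
    exact eq_inv_of_mul_eq_one_right h1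
  -- `p` does not divide `2 π.1`
  have hpπ : ¬ (p : ℤ) ∣ π.1 := by
    intro h
    have h8 : (p : ℤ) ∣ 8 * π.2 ^ 2 := by
      have e : 8 * π.2 ^ 2 = π.1 * π.1 - s * p := by
        rw [← hN]
        unfold N8
        ring
      rw [e]
      exact dvd_sub (h.mul_right _) (Dvd.intro_left _ rfl)
    have h2 : ¬ (p : ℤ) ∣ 2 := by
      intro h'
      have : p ∣ 2 := by exact_mod_cast h'
      exact hp2 ((Nat.prime_dvd_prime_iff_eq hp Nat.prime_two).1 this)
    have h3 : (p : ℤ) ∣ π.2 := by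
      rcases hpp.dvd_or_dvd h8 with h' | h'
      · exfalso
        have : (8 : ℤ) = 2 ^ 3 := by norm_num
        rw [this] at h'
        exact h2 (hpp.dvd_of_dvd_pow h')
      · exact hpp.dvd_of_dvd_pow h'
    obtain ⟨a, ha⟩ := h
    obtain ⟨b, hb⟩ := h3
    have h4 : (p : ℤ) * (p * (a ^ 2 - 8 * b ^ 2)) = p * s := by
      unfold N8 at hN
      rw [ha, hb] at hN
      linear_combination hN
    have h5 : (p : ℤ) * (a ^ 2 - 8 * b ^ 2) = s := mul_left_cancel₀ hpz h4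
    have h6 : (p : ℤ) ∣ 1 := by
      have : (p : ℤ) ∣ s * s := (Dvd.intro _ h5).mul_right _
      rw [hs] at this
      exact this
    exact hpp.not_dvd_one h6
  have hp2π : ¬ (p : ℤ) ∣ 2 * π.1 := by
    intro h
    rcases hpp.dvd_or_dvd h with h' | h'
    · have : p ∣ 2 := by exact_mod_cast h'
      exact hp2 ((Nat.prime_dvd_prime_iff_eq hp Nat.prime_two).1 this)
    · exact hpπ h'
  have hpN : (p : ℤ) ∣ N8 π := by
    rw [hN]
    exact Dvd.intro_left _ rfl
  -- the set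
  have hset : rf Ψ (p * m) = ∑ z ∈ FF (p * m) with nn z = p * m, Ψ z := rfl
  have hNz : ∀ z : ℤ × ℤ, nn z = p * m → (p : ℤ) ∣ N8 z := by
    intro z hz
    apply Int.natCast_dvd.2
    have : (N8 z).natAbs = p * m := hz
    rw [this]
    exact Dvd.intro _ rfl
  -- divisibility by `π` or by `cj π`
  have hor : ∀ z ∈ ({z ∈ FF (p * m) | nn z = p * m} : Finset (ℤ × ℤ)), Dv π z ∨ Dv (cj π) z := by
    intro z hz
    rw [mem_filter] at hz
    have h1 := hNz z hz.2
    have h2 : (p : ℤ) ∣ (z.2 * π.1 - z.1 * π.2) * (z.2 * π.1 + z.1 * π.2) := by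
      have e : (z.2 * π.1 - z.1 * π.2) * (z.2 * π.1 + z.1 * π.2) = z.2 ^ 2 * N8 π - π.2 ^ 2 * N8 z := by
        unfold N8
        ring
      rw [e]
      exact dvd_sub (Dvd.dvd.mul_left hpN _) (Dvd.dvd.mul_left h1 _)
    rcases hpp.dvd_or_dvd h2 with h3 | h3
    · left
      exact RSP_dv p hp π z s hs hN h1 h3
    · right
      refine RSP_dv p hp (cj π) z s hs (by rw [hNc, hN]) h1 ?_
      rw [hcj1, hcj2]
      have e : z.2 * π.1 - z.1 * (-π.2) = z.2 * π.1 + z.1 * π.2 := by ring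
      rw [e]
      exact h3
  -- both iff divisible by `p`
  have hboth : ∀ z : ℤ × ℤ, Dv π z ∧ Dv (cj π) z ↔ Dv ((p : ℤ), 0) z := by
    intro z
    constructor
    · rintro ⟨h1, h2⟩
      obtain ⟨h11, h12⟩ := RSP_dv_conv π z h1
      obtain ⟨h21, h22⟩ := RSP_dv_conv (cj π) z h2
      rw [hNc, hcj1, hcj2] at h21 h22
      have g1 : (p : ℤ) ∣ (2 * π.1) * z.1 := by
        have e : (2 * π.1) * z.1 = (z.1 * π.1 - 8 * z.2 * π.2) + (z.1 * π.1 - 8 * z.2 * (-π.2)) := by ring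
        rw [e]
        exact dvd_add (hpN.trans h11) (hpN.trans h21)
      have g2 : (p : ℤ) ∣ (2 * π.1) * z.2 := by
        have e : (2 * π.1) * z.2 = (z.2 * π.1 - z.1 * π.2) + (z.2 * π.1 - z.1 * (-π.2)) := by ring
        rw [e]
        exact dvd_add (hpN.trans h12) (hpN.trans h22)
      obtain ⟨a, ha⟩ := (hpp.dvd_or_dvd g1).resolve_left hp2π
      obtain ⟨b, hb⟩ := (hpp.dvd_or_dvd g2).resolve_left hp2π
      refine ⟨(a, b), ?_⟩
      unfold mul8
      ext
      · show (p : ℤ) * a + 8 * 0 * b = z.1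
        rw [ha]
        ring
      · show (p : ℤ) * b + 0 * a = z.2
        rw [hb]
        ring
    · rintro ⟨v, rfl⟩
      have hps : (p : ℤ) = s * (π.1 ^ 2 - 8 * π.2 ^ 2) := by
        unfold N8 at hN
        linear_combination (-(p : ℤ)) * hs - s * hN
      constructor
      · refine ⟨mul8 (s, 0) (mul8 (cj π) v), ?_⟩
        unfold mul8 cj
        ext
        · show π.1 * (s * (π.1 * v.1 + 8 * (-π.2) * v.2) + 8 * 0 * (π.1 * v.2 + (-π.2) * v.1)) +
            8 * π.2 * (s * (π.1 * v.2 + (-π.2) * v.1) + 0 * (π.1 * v.1 + 8 * (-π.2) * v.2)) =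
            (p : ℤ) * v.1 + 8 * 0 * v.2
          rw [hps]
          ring
        · show π.1 * (s * (π.1 * v.2 + (-π.2) * v.1) + 0 * (π.1 * v.1 + 8 * (-π.2) * v.2)) +
            π.2 * (s * (π.1 * v.1 + 8 * (-π.2) * v.2) + 8 * 0 * (π.1 * v.2 + (-π.2) * v.1)) =
            (p : ℤ) * v.2 + 0 * v.1
          rw [hps]
          ring
      · refine ⟨mul8 (s, 0) (mul8 π v), ?_⟩
        unfold mul8 cj
        ext
        · show π.1 * (s * (π.1 * v.1 + 8 * π.2 * v.2) + 8 * 0 * (π.1 * v.2 + π.2 * v.1)) +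
            8 * (-π.2) * (s * (π.1 * v.2 + π.2 * v.1) + 0 * (π.1 * v.1 + 8 * π.2 * v.2)) =
            (p : ℤ) * v.1 + 8 * 0 * v.2
          rw [hps]
          ring
        · show π.1 * (s * (π.1 * v.2 + π.2 * v.1) + 0 * (π.1 * v.1 + 8 * π.2 * v.2)) +
            (-π.2) * (s * (π.1 * v.1 + 8 * π.2 * v.2) + 8 * 0 * (π.1 * v.2 + π.2 * v.1)) =
            (p : ℤ) * v.2 + 0 * v.1
          rw [hps]
          ring
  -- the three sums
  have hS1 : ∑ z ∈ FF (p * m) with (nn z = p * m ∧ Dv π z), Ψ z = Ψ π * rf Ψ m := by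
    have h := hMUL d Ψ ⟨hmul, hunit, hzero, hnorm, hrat⟩ π hπodd m hm
    rw [hπ, mul_comm m p] at h
    exact h
  have hS2 : ∑ z ∈ FF (p * m) with (nn z = p * m ∧ Dv (cj π) z), Ψ z =
      (starRingEnd ℂ) (Ψ π) * rf Ψ m := by
    have h := hMUL d Ψ ⟨hmul, hunit, hzero, hnorm, hrat⟩ (cj π) hcjodd m hm
    rw [hnc, hπ, mul_comm m p, hconj] at h
    exact h
  have hnp : nn ((p : ℤ), (0 : ℤ)) = p * p := by
    have e : N8 ((p : ℤ), (0 : ℤ)) = ((p * p : ℕ) : ℤ) := by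
      unfold N8
      push_cast
      ring
    unfold nn
    rw [e, Int.natAbs_natCast]
  have hS3 : ∑ z ∈ FF (p * m) with (nn z = p * m ∧ Dv ((p : ℤ), 0) z), Ψ z =
      if p ∣ m then rf Ψ (m / p) else 0 := by
    by_cases hdv : p ∣ m
    · rw [if_pos hdv]
      obtain ⟨m', rfl⟩ := hdv
      have hm' : 1 ≤ m' := by
        rcases Nat.eq_zero_or_pos m' with h | h
        · rw [h] at hm
          omega
        · exact h
      rw [Nat.mul_div_cancel_left _ hp.pos]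
      have hpodd' : ((p : ℤ), (0 : ℤ)).1 % 2 = 1 := by
        show (p : ℤ) % 2 = 1
        omega
      have h := hMUL d Ψ ⟨hmul, hunit, hzero, hnorm, hrat⟩ ((p : ℤ), 0) hpodd' m' hm'
      rw [hnp, hrat (p : ℤ) hpodd' hcop', one_mul] at h
      have e : m' * (p * p) = p * (p * m') := by ring
      rw [e] at h
      exact h
    · rw [if_neg hdv]
      apply sum_eq_zero
      intro z hz
      exfalso
      rw [mem_filter] at hz
      obtain ⟨_, h1, v, rfl⟩ := hz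
      rw [RSP_nn_mul, hnp, mul_assoc] at h1
      have h2 : p * nn v = m := Nat.eq_of_mul_eq_mul_left hp.pos h1
      exact hdv ⟨_, h2.symm⟩
  rw [hset, RSP_ie _ Ψ (fun z => Dv π z) (fun z => Dv (cj π) z) hor, filter_filter, filter_filter,
    filter_filter]
  rw [hS1, hS2, ← hS3]
  have hlast : ∑ z ∈ FF (p * m) with (nn z = p * m ∧ (Dv π z ∧ Dv (cj π) z)), Ψ z =
      ∑ z ∈ FF (p * m) with (nn z = p * m ∧ Dv ((p : ℤ), 0) z), Ψ z := by
    refine sum_congr (filter_congr fun z _ => ?_) fun _ _ => rfl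
    rw [hboth z]
  rw [hlast]
  ring

end Pool.Agent.HK
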